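import Pool.Agent.NDR.StmtsL

/-! # Squad NDL, row GNB: the generic point. -/

set_option autoImplicit false

open Finset

namespace Pool.Agent.NDR.H42

theorem ev_pos (x e : ℚ) (hx : 0 < x) : ∀ᶠ n : ℕ in Filter.atTop, 0 < x + e / n := by
  obtain ⟨N, hN⟩ := exists_nat_gt (|e| / x)
  rw [Filter.eventually_atTop]
  refine ⟨N + 1, fun n hn => ?_⟩
  have hn0 : (0 : ℚ) < n := by
    have : 0 < n := by omega
    exact_mod_cast this
  have h1 : |e| / x < n := hN.trans (by exact_mod_cast (by omega : N < n))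
  rw [div_lt_iff₀ hx] at h1
  have h2 : |e / n| < x := by
    rw [abs_div, abs_of_pos hn0, div_lt_iff₀ hn0]
    linarith
  have h3 := neg_abs_le (e / n)
  linarith

theorem ev_nint (x e : ℚ) (he : e ≠ 0) :
    ∀ᶠ n : ℕ in Filter.atTop, ∀ z : ℤ, x + e / n ≠ z := by
  have h1 : (0 : ℚ) < (⌊x⌋ + 1) - x := by linarith [Int.lt_floor_add_one x]
  have h2 : (0 : ℚ) < x - (⌈x⌉ - 1) := by linarith [Int.ceil_lt_add_one x]
  have h3 := ev_pos _ (-e) h1
  have h4 := ev_pos _ e h2
  filter_upwards [h3, h4, Filter.eventually_gt_atTop 0] with n h3 h4 hn z hz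
  have hn0 : (n : ℚ) ≠ 0 := by
    have : n ≠ 0 := by omega
    exact_mod_cast this
  have he' : e / n ≠ 0 := div_ne_zero he hn0
  rw [neg_div] at h3
  rcases lt_trichotomy (z : ℚ) x with h | h | h
  · have h5 : z ≤ ⌈x⌉ - 1 := by
      have : z < ⌈x⌉ := Int.lt_ceil.mpr h
      omega
    have h6 : (z : ℚ) ≤ ⌈x⌉ - 1 := by exact_mod_cast h5
    linarith
  · apply he'
    linarith
  · have h5 : ⌊x⌋ + 1 ≤ z := by
      have : ⌊x⌋ < z := Int.floor_lt.mpr h
      omega
    have h6 : (⌊x⌋ : ℚ) + 1 ≤ z := by exact_mod_cast h5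
    linarith

section

variable {σ : Type} [Fintype σ]

/-- pairing -/
def prm (l : σ → ℚ) : (σ → ℚ) →ₗ[ℚ] ℚ where
  toFun x := ∑ i, l i * x i
  map_add' x y := by
    rw [← Finset.sum_add_distrib]
    exact Finset.sum_congr rfl fun i _ => by rw [Pi.add_apply]; ring
  map_smul' c x := by
    rw [RingHom.id_apply, smul_eq_mul, Finset.mul_sum]
    exact Finset.sum_congr rfl fun i _ => by rw [Pi.smul_apply, smul_eq_mul]; ring

theorem prm_apply (l x : σ → ℚ) : prm l x = ∑ i, l i * x i := rfl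

/-- an integral functional which separates a vector from a subspace -/
theorem dual_int (W : Submodule ℚ (σ → ℚ)) (x : σ → ℚ) (hx : x ∉ W) :
    ∃ l : σ → ℤ, (∀ w ∈ W, prm (fun i => (l i : ℚ)) w = 0) ∧ prm (fun i => (l i : ℚ)) x ≠ 0 := by
  classical
  obtain ⟨f, hf, hW⟩ := Submodule.exists_le_ker_of_notMem hx
  have hfx : ∀ y : σ → ℚ, f y = ∑ i, f (Pi.single i 1) * y i := by
    intro y
    have h1 : y = ∑ i, y i • (Pi.single i (1 : ℚ) : σ → ℚ) := by
      funext j
      rw [Finset.sum_apply]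
      simp only [Pi.smul_apply, smul_eq_mul, Pi.single_apply, mul_ite, mul_one, mul_zero]
      rw [Finset.sum_ite_eq]
      simp
    conv_lhs => rw [h1]
    rw [map_sum]
    refine Finset.sum_congr rfl fun i _ => ?_
    rw [map_smul, smul_eq_mul, mul_comm]
  obtain ⟨M, hM⟩ : ∃ M : ℕ, M = ∏ i, (f (Pi.single i 1)).den := ⟨_, rfl⟩
  have hM0 : (M : ℚ) ≠ 0 := by
    rw [hM]
    have : ∏ i, (f (Pi.single i 1)).den ≠ 0 :=
      Finset.prod_ne_zero_iff.mpr fun i _ => Rat.den_ne_zero _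
    exact_mod_cast this
  have hl : ∀ i, ∃ z : ℤ, (z : ℚ) = (M : ℚ) * f (Pi.single i 1) := by
    intro i
    obtain ⟨c, hc⟩ : (f (Pi.single i 1)).den ∣ M := by
      rw [hM]
      exact Finset.dvd_prod_of_mem _ (mem_univ i)
    refine ⟨c * (f (Pi.single i 1)).num, ?_⟩
    rw [hc]
    push_cast
    have h2 := Rat.mul_den_eq_num (f (Pi.single i 1))
    rw [← h2]
    ring
  choose l hl using hl
  have hprm : ∀ y : σ → ℚ, prm (fun i => (l i : ℚ)) y = (M : ℚ) * f y := by
    intro y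
    rw [prm_apply, hfx y, Finset.mul_sum]
    refine Finset.sum_congr rfl fun i _ => ?_
    rw [hl i]
    ring
  refine ⟨l, ?_, ?_⟩
  · intro w hw
    have h3 : f w = 0 := hW hw
    rw [hprm, h3, mul_zero]
  · rw [hprm]
    exact mul_ne_zero hM0 hf

omit [Fintype σ] in
theorem cmb_add (A : Finset (σ →₀ ℕ)) (μ ν : (σ →₀ ℕ) → ℚ) (i : σ) :
    cmb A (μ + ν) i = cmb A μ i + cmb A ν i := by
  unfold cmb
  rw [← Finset.sum_add_distrib]
  exact Finset.sum_congr rfl fun a _ => by rw [Pi.add_apply]; ring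

omit [Fintype σ] in
theorem cmb_smul (A : Finset (σ →₀ ℕ)) (c : ℚ) (μ : (σ →₀ ℕ) → ℚ) (i : σ) :
    cmb A (c • μ) i = c * cmb A μ i := by
  unfold cmb
  rw [Finset.mul_sum]
  exact Finset.sum_congr rfl fun a _ => by rw [Pi.smul_apply, smul_eq_mul]; ring

open Classical in
/-- the combination, restricted to `I` -/
noncomputable def KK (A : Finset (σ →₀ ℕ)) (I : Finset σ) : ((σ →₀ ℕ) → ℚ) →ₗ[ℚ] (σ → ℚ) where
  toFun δ i := if i ∈ I then cmb A δ i else 0
  map_add' μ ν := by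
    funext i
    by_cases h : i ∈ I
    · simp only [Pi.add_apply, h, if_true, cmb_add]
    · simp only [Pi.add_apply, h, if_false, add_zero]
  map_smul' c μ := by
    funext i
    by_cases h : i ∈ I
    · simp only [Pi.smul_apply, h, if_true, cmb_smul, smul_eq_mul, RingHom.id_apply]
    · simp only [Pi.smul_apply, h, if_false, smul_eq_mul, RingHom.id_apply, mul_zero]

omit [Fintype σ] in
theorem KK_in (A : Finset (σ →₀ ℕ)) (I : Finset σ) (δ : (σ →₀ ℕ) → ℚ) {i : σ} (h : i ∈ I) :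
    KK A I δ i = cmb A δ i := if_pos h

omit [Fintype σ] in
theorem KK_out (A : Finset (σ →₀ ℕ)) (I : Finset σ) (δ : (σ →₀ ℕ) → ℚ) {i : σ} (h : i ∉ I) :
    KK A I δ i = 0 := if_neg h

/-- pairing of a combination -/
theorem prm_cmb (A : Finset (σ →₀ ℕ)) (I : Finset σ) (v : σ → ℚ) (hv : Off I v)
    (δ : (σ →₀ ℕ) → ℚ) : prm v (KK A I δ) = ∑ a ∈ A, δ a * dq v a := by
  have h1 : ∀ i, v i * KK A I δ i = v i * cmb A δ i := by
    intro i
    by_cases h : i ∈ I
    · rw [KK_in A I δ h]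
    · rw [hv i h, zero_mul, zero_mul]
  rw [prm_apply, Finset.sum_congr rfl fun i _ => h1 i]
  unfold cmb dq
  simp only [Finset.mul_sum]
  rw [Finset.sum_comm]
  refine Finset.sum_congr rfl fun a _ => Finset.sum_congr rfl fun i _ => ?_
  ring

omit [Fintype σ] in
theorem KK_congr (A : Finset (σ →₀ ℕ)) (I : Finset σ) (δ δ' : (σ →₀ ℕ) → ℚ)
    (h : ∀ a ∈ A, δ a = δ' a) : KK A I δ = KK A I δ' := by
  funext i
  by_cases hi : i ∈ I
  · rw [KK_in A I δ hi, KK_in A I δ' hi]
    unfold cmb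
    exact Finset.sum_congr rfl fun a ha => by rw [h a ha]
  · rw [KK_out A I δ hi, KK_out A I δ' hi]

end

theorem gnb : GnbStmt := by
  classical
  intro σ _ A I Q μ₁ γ hγ hQI hflat hμ₁ hQ hIQ
  -- the all one vector is a combination
  obtain ⟨lam, hlam⟩ : ∃ lam : (σ →₀ ℕ) → ℚ, ∀ i ∈ I, cmb A lam i = 1 := by
    by_contra hno
    have hx : (fun i => if i ∈ I then (1 : ℚ) else 0) ∉ LinearMap.range (KK A I) := by
      rintro ⟨δ, hδ⟩
      apply hno
      refine ⟨δ, fun i hi => ?_⟩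
      have h1 := congrFun hδ i
      rw [KK_in A I δ hi] at h1
      simpa [hi] using h1
    obtain ⟨l, hl1, hl2⟩ := dual_int _ _ hx
    obtain ⟨v, hv⟩ : ∃ v : σ → ℚ, v = fun i => if i ∈ I then (l i : ℚ) else 0 := ⟨_, rfl⟩
    have hoff : Off I v := by
      intro i hi
      rw [hv]
      exact if_neg hi
    have hvK : ∀ δ, prm v (KK A I δ) = prm (fun i => (l i : ℚ)) (KK A I δ) := by
      intro δ
      rw [prm_apply, prm_apply]
      refine Finset.sum_congr rfl fun i _ => ?_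
      by_cases hi : i ∈ I
      · rw [hv]
        simp only [hi, if_true]
      · rw [KK_out A I δ hi, mul_zero, mul_zero]
    have hva : ∀ a ∈ A, dq v a = 0 := by
      intro a ha
      have h1 := hl1 (KK A I (Pi.single a 1)) ⟨_, rfl⟩
      rw [← hvK, prm_cmb A I v hoff] at h1
      rw [Finset.sum_eq_single_of_mem a ha (fun b _ hb => by
        rw [Pi.single_eq_of_ne hb, zero_mul]), Pi.single_eq_same, one_mul] at h1
      exact h1
    have h2 := hflat v hoff hva
    apply hl2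
    rw [prm_apply]
    refine Eq.trans (Finset.sum_congr rfl fun i _ => ?_) h2
    rw [hv]
    by_cases hi : i ∈ I
    · simp only [hi, if_true, mul_one]
    · simp only [hi, if_false, mul_zero]
  -- the subspaces
  let N : Submodule ℚ ((σ →₀ ℕ) → ℚ) :=
    { carrier := {δ | ∀ i ∈ Q, cmb A δ i = 0}
      zero_mem' := fun i _ => by
        unfold cmb
        exact Finset.sum_eq_zero fun a _ => by rw [Pi.zero_apply, zero_mul]
      add_mem' := fun {x y} hx hy i hi => by rw [cmb_add, hx i hi, hy i hi, add_zero]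
      smul_mem' := fun c x hx i hi => by rw [cmb_smul, hx i hi, mul_zero] }
  have hN : ∀ δ, δ ∈ N ↔ ∀ i ∈ Q, cmb A δ i = 0 := fun δ => Iff.rfl
  let Es : Finset (σ →₀ ℕ) → Submodule ℚ ((σ →₀ ℕ) → ℚ) := fun S =>
    { carrier := {δ | ∀ a, a ∉ S → δ a = 0}
      zero_mem' := fun a _ => rfl
      add_mem' := fun {x y} hx hy a ha => by rw [Pi.add_apply, hx a ha, hy a ha, add_zero]
      smul_mem' := fun c x hx a ha => by rw [Pi.smul_apply, hx a ha, smul_zero] }
  have hEs : ∀ S δ, δ ∈ Es S ↔ ∀ a, a ∉ S → δ a = 0 := fun S δ => Iff.rfl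
  let bad : Finset (σ →₀ ℕ) → Prop := fun S => ¬ N.map (KK A I) ≤ (Es S).map (KK A I)
  have hsep : ∀ S, bad S → ∃ l : σ → ℤ,
      (∀ δ ∈ Es S, prm (fun i => (l i : ℚ)) (KK A I δ) = 0) ∧
      ∃ δ ∈ N, prm (fun i => (l i : ℚ)) (KK A I δ) ≠ 0 := by
    intro S hS
    obtain ⟨x, hx1, hx2⟩ := SetLike.not_le_iff_exists.mp hS
    obtain ⟨l, hl1, hl2⟩ := dual_int _ _ hx2
    obtain ⟨δ, hδ, rfl⟩ := (Submodule.mem_map).mp hx1
    exact ⟨l, fun δ' hδ' => hl1 _ (Submodule.mem_map_of_mem hδ'), δ, hδ, hl2⟩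
  choose! l hl1 hl2 using hsep
  -- the functionals
  let f : ({S // S ∈ A.powerset ∧ bad S} ⊕ {i // i ∈ I ∧ i ∉ Q}) →
      Module.Dual ℚ ((σ →₀ ℕ) → ℚ) := fun s => match s with
    | Sum.inl S => (prm (fun i => (l S.1 i : ℚ))).comp (KK A I)
    | Sum.inr i => (LinearMap.proj i.1).comp (KK A I)
  have hfin1 : Finite {S // S ∈ A.powerset ∧ bad S} :=
    Finite.of_injective (fun S => (⟨S.1, S.2.1⟩ : {S // S ∈ A.powerset})) (by
      intro a b h
      exact Subtype.ext (congrArg (fun x : {S // S ∈ A.powerset} => x.1) h))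
  obtain ⟨δ, hδN, hδ⟩ := Module.Dual.exists_forall_mem_ne_zero_of_forall_exists N f (by
    rintro (S | i)
    · obtain ⟨δ, h1, h2⟩ := hl2 S.1 S.2.2
      exact ⟨δ, h1, h2⟩
    · refine ⟨μ₁ + (-1 : ℚ) • lam, ?_, ?_⟩
      · rw [hN]
        intro j hj
        rw [cmb_add, cmb_smul, hQ j hj, hlam j (hQI hj)]
        norm_num
      · change KK A I (μ₁ + (-1 : ℚ) • lam) i.1 ≠ 0
        rw [KK_in A I _ i.2.1, cmb_add, cmb_smul, hlam i.1 i.2.1]
        have := hIQ i.1 i.2.1 i.2.2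
        intro h
        linarith)
  have hδS : ∀ S, S ∈ A.powerset → bad S → prm (fun i => (l S i : ℚ)) (KK A I δ) ≠ 0 :=
    fun S h1 h2 => hδ (Sum.inl ⟨S, h1, h2⟩)
  have hδi : ∀ i, i ∈ I → i ∉ Q → cmb A δ i ≠ 0 := by
    intro i h1 h2
    have h3 : KK A I δ i ≠ 0 := hδ (Sum.inr ⟨i, h1, h2⟩)
    rwa [KK_in A I δ h1] at h3
  -- choice of n
  have e1 : ∀ᶠ n : ℕ in Filter.atTop, ∀ a ∈ A, 0 < μ₁ a + δ a / n := by
    rw [Filter.eventually_all_finset]
    exact fun a ha => ev_pos _ _ (hμ₁ a ha)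
  have e2 : ∀ᶠ n : ℕ in Filter.atTop, ∀ i ∈ I, i ∉ Q → 0 < (cmb A μ₁ i - 1) + cmb A δ i / n := by
    rw [Filter.eventually_all_finset]
    intro i hi
    by_cases hq : i ∈ Q
    · exact Filter.Eventually.of_forall fun n h => absurd hq h
    · filter_upwards [ev_pos (cmb A μ₁ i - 1) (cmb A δ i) (by linarith [hIQ i hi hq])] with n hn _
      exact hn
  have e3 : ∀ᶠ n : ℕ in Filter.atTop, ∀ i ∈ I, i ∉ Q →
      ∀ z : ℤ, cmb A μ₁ i + cmb A δ i / n ≠ z := by
    rw [Filter.eventually_all_finset]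
    intro i hi
    by_cases hq : i ∈ Q
    · exact Filter.Eventually.of_forall fun n h => absurd hq h
    · filter_upwards [ev_nint (cmb A μ₁ i) (cmb A δ i) (hδi i hi hq)] with n hn _
      exact hn
  have e4 : ∀ᶠ n : ℕ in Filter.atTop, ∀ S ∈ A.powerset, bad S → ∀ z : ℤ,
      prm (fun i => (l S i : ℚ)) (KK A I μ₁) + prm (fun i => (l S i : ℚ)) (KK A I δ) / n ≠ z := by
    rw [Filter.eventually_all_finset]
    intro S hS
    by_cases hb : bad S
    · filter_upwards [ev_nint (prm (fun i => (l S i : ℚ)) (KK A I μ₁)) _ (hδS S hS hb)]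
        with n hn _
      exact hn
    · exact Filter.Eventually.of_forall fun n h => absurd h hb
  have e5 : ∀ᶠ n : ℕ in Filter.atTop, 0 < γ + (-∑ a ∈ A, δ a) / n := ev_pos _ _ hγ
  obtain ⟨n, h1, h2, h3, h4, h5⟩ := (e1.and (e2.and (e3.and (e4.and e5)))).exists
  have hμc : ∀ i, cmb A (μ₁ + (1 / n : ℚ) • δ) i = cmb A μ₁ i + cmb A δ i / n := by
    intro i
    rw [cmb_add, cmb_smul]
    ring
  refine ⟨μ₁ + (1 / n : ℚ) • δ, ?_, ?_, ?_, ?_, ?_⟩
  · intro a ha
    have := h1 a ha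
    rw [Pi.add_apply, Pi.smul_apply, smul_eq_mul]
    have h6 : 1 / (n : ℚ) * δ a = δ a / n := by ring
    rw [h6]
    exact this
  · intro i hi
    rw [hμc, hQ i hi, (hN δ).mp hδN i hi, zero_div, add_zero]
  · intro i hi hq
    rw [hμc]
    refine ⟨?_, h3 i hi hq⟩
    have := h2 i hi hq
    linarith
  · have h6 : ∑ a ∈ A, (μ₁ + (1 / n : ℚ) • δ) a = ∑ a ∈ A, μ₁ a + (∑ a ∈ A, δ a) / n := by
      rw [Finset.sum_div, ← Finset.sum_add_distrib]
      refine Finset.sum_congr rfl fun a _ => ?_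
      rw [Pi.add_apply, Pi.smul_apply, smul_eq_mul]
      ring
    rw [h6]
    rw [neg_div] at h5
    linarith
  · intro q hq ν hν hqν v hoff hv
    obtain ⟨S, hS⟩ : ∃ S, S = A.filter fun a => 0 < ν a := ⟨_, rfl⟩
    have hSA : S ∈ A.powerset := by
      rw [Finset.mem_powerset, hS]
      exact Finset.filter_subset _ _
    have hvS : ∀ a ∈ S, dq v a = 0 := by
      intro a ha
      rw [hS, mem_filter] at ha
      apply hv a ha.1
      intro i hi h0
      have h7 := hqν i (hQI hi)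
      rw [h0] at h7
      have h8 : ν a * (a i : ℚ) ≤ cmb A ν i := by
        unfold cmb
        exact Finset.single_le_sum (f := fun a : σ →₀ ℕ => ν a * (a i : ℚ))
          (fun b hb => mul_nonneg (hν b hb) (Nat.cast_nonneg _)) ha.1
      rw [← h7] at h8
      have h9 : (a i : ℚ) ≤ 0 := by
        by_contra h
        have := mul_pos ha.2 (not_le.mp h)
        linarith
      have h10 : (a i : ℚ) = 0 := le_antisymm h9 (Nat.cast_nonneg _)
      exact_mod_cast h10
    have hkey : ∀ δ' ∈ Es S, prm v (KK A I δ') = 0 := by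
      intro δ' hδ'
      rw [prm_cmb A I v hoff]
      apply Finset.sum_eq_zero
      intro a _
      by_cases ha : a ∈ S
      · rw [hvS a ha, mul_zero]
      · rw [(hEs S δ').mp hδ' a ha, zero_mul]
    by_cases hb : bad S
    · exfalso
      -- q is in the span of S
      obtain ⟨ν', hν'⟩ : ∃ ν' : (σ →₀ ℕ) → ℚ, ν' = fun a => if a ∈ S then ν a else 0 := ⟨_, rfl⟩
      have h7 : ν' ∈ Es S := by
        rw [hEs]
        intro a ha
        rw [hν']
        exact if_neg ha
      have h8 : KK A I ν = KK A I ν' := by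
        apply KK_congr
        intro a ha
        rw [hν']
        by_cases h : a ∈ S
        · simp only [h, if_true]
        · simp only [h, if_false]
          rw [hS, mem_filter, not_and] at h
          exact le_antisymm (not_lt.mp (h ha)) (hν a ha)
      have h9 := hl1 S hb ν' h7
      rw [← h8] at h9
      choose! z hz using hq
      apply h4 S hSA hb (-∑ i ∈ I, l S i * z i)
      have h10 : prm (fun i => (l S i : ℚ)) (KK A I (μ₁ + (1 / n : ℚ) • δ)) =
          prm (fun i => (l S i : ℚ)) (KK A I μ₁) +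
            prm (fun i => (l S i : ℚ)) (KK A I δ) / n := by
        rw [map_add, map_add, map_smul, map_smul, smul_eq_mul]
        ring
      rw [← h10]
      have h11 : prm (fun i => (l S i : ℚ)) (KK A I ν) =
          prm (fun i => (l S i : ℚ)) (KK A I (μ₁ + (1 / n : ℚ) • δ)) +
            ∑ i ∈ I, (l S i : ℚ) * (z i : ℚ) := by
        rw [prm_apply, prm_apply, ← Finset.sum_subset (Finset.subset_univ I) (fun i _ hi => by
          rw [KK_out A I _ hi, mul_zero]), ← Finset.sum_subset (Finset.subset_univ I)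
          (fun i _ hi => by rw [KK_out A I _ hi, mul_zero]), ← Finset.sum_add_distrib]
        refine Finset.sum_congr rfl fun i hi => ?_
        rw [KK_in A I _ hi, KK_in A I _ hi, ← hqν i hi, hz i hi]
        ring
      rw [h9] at h11
      push_cast
      linarith
    · have h7 : N.map (KK A I) ≤ (Es S).map (KK A I) := not_not.mp hb
      have h8 : KK A I ((μ₁ + (1 / n : ℚ) • δ) + (-1 : ℚ) • lam) ∈ N.map (KK A I) := by
        apply Submodule.mem_map_of_mem
        rw [hN]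
        intro i hi
        rw [cmb_add, cmb_smul, hμc, hQ i hi, hlam i (hQI hi), (hN δ).mp hδN i hi]
        norm_num
      obtain ⟨δ', hδ', he⟩ := (Submodule.mem_map).mp (h7 h8)
      have h9 := hkey δ' hδ'
      rw [he, prm_apply] at h9
      have h10 : ∑ i, v i * (1 - cmb A (μ₁ + (1 / n : ℚ) • δ) i) =
          -∑ i, v i * KK A I ((μ₁ + (1 / n : ℚ) • δ) + (-1 : ℚ) • lam) i := by
        rw [← Finset.sum_neg_distrib]
        refine Finset.sum_congr rfl fun i _ => ?_
        by_cases hi : i ∈ I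
        · rw [KK_in A I _ hi, cmb_add A (μ₁ + (1 / n : ℚ) • δ), cmb_smul, hlam i hi]
          ring
        · rw [hoff i hi]
          ring
      rw [h10, h9, neg_zero]

end Pool.Agent.NDR.H42
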