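import Pool.Agent.NDR.StmtsM
import Pool.Agent.Helper42_NDL.GNB

/-! # Squad NDL, row GNR: the real generic point. -/

set_option autoImplicit false

open Finset

namespace Pool.Agent.NDR.H42

theorem ev_posR (x e : ℝ) (hx : 0 < x) : ∀ᶠ n : ℕ in Filter.atTop, 0 < x + e / n := by
  obtain ⟨N, hN⟩ := exists_nat_gt (|e| / x)
  rw [Filter.eventually_atTop]
  refine ⟨N + 1, fun n hn => ?_⟩
  have hn0 : (0 : ℝ) < n := by
    have : 0 < n := by omega
    exact_mod_cast this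
  have h1 : |e| / x < n := hN.trans (by exact_mod_cast (by omega : N < n))
  rw [div_lt_iff₀ hx] at h1
  have h2 : |e / n| < x := by
    rw [abs_div, abs_of_pos hn0, div_lt_iff₀ hn0]
    linarith
  have h3 := neg_abs_le (e / n)
  linarith

/-- powers of a transcendental number -/
theorem pow_ind : ∃ τ : ℝ, ∀ (r : ℕ) (c : Fin r → ℚ) (c0 : ℚ),
    ∑ j, (c j : ℝ) * τ ^ (j.val + 1) + (c0 : ℝ) = 0 → ∀ j, c j = 0 := by
  have htr : Transcendental ℚ (liouvilleNumber (2 : ℕ)) := fun h =>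
    transcendental_liouvilleNumber (le_refl 2) ((IsFractionRing.isAlgebraic_iff ℤ ℚ ℝ).mpr h)
  refine ⟨liouvilleNumber (2 : ℕ), ?_⟩
  generalize liouvilleNumber (2 : ℕ) = τ at htr
  intro r c c0 h
  obtain ⟨p, hp⟩ : ∃ p : Polynomial ℚ, p = ∑ j : Fin r, Polynomial.monomial (j.val + 1) (c j) +
    Polynomial.C c0 := ⟨_, rfl⟩
  have h1 : Polynomial.aeval τ p = 0 := by
    rw [hp, map_add, map_sum, Polynomial.aeval_C, ← h]
    congr 1
    refine Finset.sum_congr rfl fun j _ => ?_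
    rw [Polynomial.aeval_monomial]
    rfl
  have h2 : p = 0 := (transcendental_iff.mp htr) p h1
  intro j
  have h3 : p.coeff (j.val + 1) = 0 := by rw [h2, Polynomial.coeff_zero]
  rw [hp, Polynomial.coeff_add, Polynomial.finsetSum_coeff, Polynomial.coeff_C_succ, add_zero,
    Finset.sum_eq_single j (fun i _ hi => by
      rw [Polynomial.coeff_monomial, if_neg]
      intro h4
      exact hi (Fin.ext (by omega))) (fun h4 => absurd (mem_univ _) h4),
    Polynomial.coeff_monomial, if_pos rfl] at h3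
  exact h3

theorem gnr : GnrStmt := by
  classical
  intro σ _ A I Q μ₁ γ hγ hQI hμ₁ hQ hIQ
  obtain ⟨τ, hτ⟩ := pow_ind
  -- the coefficient space
  let ψ : σ → ((A → ℚ) →ₗ[ℚ] ℚ) := fun i => ∑ a : A, ((a.1 i : ℚ)) • LinearMap.proj a
  have hψ : ∀ i δ, ψ i δ = ∑ a : A, δ a * (a.1 i : ℚ) := by
    intro i δ
    simp only [ψ, LinearMap.sum_apply, LinearMap.smul_apply, LinearMap.proj_apply, smul_eq_mul]
    exact Finset.sum_congr rfl fun a _ => mul_comm _ _
  let N : Submodule ℚ (A → ℚ) := ⨅ i : Q, LinearMap.ker (ψ i.1)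
  obtain ⟨r, s, hs⟩ := Submodule.fg_iff_exists_fin_generating_family.mp (IsNoetherian.noetherian N)
  have hsN : ∀ j, s j ∈ N := by
    intro j
    rw [← hs]
    exact Submodule.subset_span ⟨j, rfl⟩
  have hsQ : ∀ j, ∀ i ∈ Q, ∑ a : A, s j a * (a.1 i : ℚ) = 0 := by
    intro j i hi
    have h1 := hsN j
    rw [Submodule.mem_iInf] at h1
    have h2 := h1 ⟨i, hi⟩
    rw [LinearMap.mem_ker, hψ] at h2
    exact h2
  -- the real direction
  obtain ⟨D, hD⟩ : ∃ D : (σ →₀ ℕ) → ℝ, D = fun a => if h : a ∈ A then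
      ∑ j, (s j ⟨a, h⟩ : ℝ) * τ ^ (j.val + 1) else 0 := ⟨_, rfl⟩
  have hDa : ∀ a : A, D a.1 = ∑ j, (s j a : ℝ) * τ ^ (j.val + 1) := by
    intro a
    rw [hD]
    simp only [a.2, dif_pos]
  have hDs : ∀ f : (σ →₀ ℕ) → ℝ, ∑ a ∈ A, D a * f a =
      ∑ j, (∑ a : A, (s j a : ℝ) * f a.1) * τ ^ (j.val + 1) := by
    intro f
    rw [← Finset.sum_coe_sort A, Finset.sum_congr rfl fun a _ => by rw [hDa a]]
    simp only [Finset.sum_mul]
    rw [Finset.sum_comm]
    refine Finset.sum_congr rfl fun j _ => Finset.sum_congr rfl fun a _ => ?_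
    ring
  have hDQ : ∀ i ∈ Q, ∑ a ∈ A, D a * (a i : ℝ) = 0 := by
    intro i hi
    rw [hDs fun a => (a i : ℝ)]
    apply Finset.sum_eq_zero
    intro j _
    have h1 := hsQ j i hi
    have h2 : ∑ a : A, (s j a : ℝ) * (a.1 i : ℝ) = 0 := by exact_mod_cast h1
    rw [h2, zero_mul]
  -- choice of n
  have e1 : ∀ᶠ n : ℕ in Filter.atTop, ∀ a ∈ A, 0 < (μ₁ a : ℝ) + D a / n := by
    rw [Filter.eventually_all_finset]
    exact fun a ha => ev_posR _ _ (by exact_mod_cast hμ₁ a ha)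
  have e2 : ∀ᶠ n : ℕ in Filter.atTop, ∀ i ∈ I, i ∉ Q →
      0 < ((cmb A μ₁ i : ℝ) - 1) + (∑ a ∈ A, D a * (a i : ℝ)) / n := by
    rw [Filter.eventually_all_finset]
    intro i hi
    by_cases hq : i ∈ Q
    · exact Filter.Eventually.of_forall fun n h => absurd hq h
    · have h1 : (1 : ℝ) < (cmb A μ₁ i : ℝ) := by exact_mod_cast hIQ i hi hq
      filter_upwards [ev_posR ((cmb A μ₁ i : ℝ) - 1) (∑ a ∈ A, D a * (a i : ℝ))
        (by linarith)] with n hn _
      exact hn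
  have e5 : ∀ᶠ n : ℕ in Filter.atTop, 0 < (γ : ℝ) + (-∑ a ∈ A, D a) / n :=
    ev_posR _ _ (by exact_mod_cast hγ)
  obtain ⟨n, h1, h2, h5, hn⟩ := (e1.and (e2.and (e5.and (Filter.eventually_gt_atTop 0)))).exists
  have hn0 : (n : ℝ) ≠ 0 := by
    have : n ≠ 0 := by omega
    exact_mod_cast this
  obtain ⟨μ, hμ⟩ : ∃ μ : (σ →₀ ℕ) → ℝ, μ = fun a => (μ₁ a : ℝ) + D a / n := ⟨_, rfl⟩
  have hμs : ∀ f : (σ →₀ ℕ) → ℝ, ∑ a ∈ A, μ a * f a =
      ∑ a ∈ A, (μ₁ a : ℝ) * f a + (∑ a ∈ A, D a * f a) / n := by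
    intro f
    rw [hμ, Finset.sum_div, ← Finset.sum_add_distrib]
    refine Finset.sum_congr rfl fun a _ => ?_
    ring
  have hμc : ∀ i, cmbR A μ i = (cmb A μ₁ i : ℝ) + (∑ a ∈ A, D a * (a i : ℝ)) / n := by
    intro i
    unfold cmbR cmb
    rw [hμs fun a => (a i : ℝ)]
    push_cast
    rfl
  refine ⟨μ, ?_, ?_, ?_, ?_, ?_⟩
  · intro a ha
    rw [hμ]
    exact h1 a ha
  · intro i hi
    rw [hμc, hDQ i hi, hQ i hi]
    simp
  · intro i hi hq
    rw [hμc]
    have := h2 i hi hq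
    linarith
  · have h6 := hμs fun _ => 1
    simp only [mul_one] at h6
    rw [h6]
    rw [neg_div] at h5
    linarith
  · intro v hoff hr
    obtain ⟨ρ, hρ⟩ := hr
    -- the pairing
    have h7 : ∑ i, (v i : ℝ) * cmbR A μ i = ∑ a ∈ A, μ a * (dq v a : ℝ) := by
      unfold cmbR dq
      push_cast
      simp only [Finset.mul_sum]
      rw [Finset.sum_comm]
      refine Finset.sum_congr rfl fun a _ => Finset.sum_congr rfl fun i _ => ?_
      ring
    rw [h7, hμs fun a => (dq v a : ℝ), hDs fun a => (dq v a : ℝ)] at hρ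
    have h8 := hτ r (fun j => ∑ a : A, s j a * dq v a.1)
      (n * (∑ a ∈ A, μ₁ a * dq v a - ρ)) (by
        push_cast
        have h9 : (∑ j, (∑ a : A, (s j a : ℝ) * (dq v a.1 : ℝ)) * τ ^ (j.val + 1)) =
            n * (ρ - ∑ a ∈ A, (μ₁ a : ℝ) * (dq v a : ℝ)) := by
          have h10 : (∑ j, (∑ a : A, (s j a : ℝ) * (dq v a.1 : ℝ)) * τ ^ (j.val + 1)) / n =
            ρ - ∑ a ∈ A, (μ₁ a : ℝ) * (dq v a : ℝ) := by linarith
          rw [← h10]
          field_simp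
        rw [h9]
        ring)
    obtain ⟨φ, hφ⟩ : ∃ φ : (A → ℚ) →ₗ[ℚ] ℚ, ∀ δ, φ δ = ∑ a : A, δ a * dq v a.1 := by
      refine ⟨∑ a : A, (dq v a.1) • LinearMap.proj a, fun δ => ?_⟩
      simp only [LinearMap.sum_apply, LinearMap.smul_apply, LinearMap.proj_apply, smul_eq_mul]
      exact Finset.sum_congr rfl fun a _ => mul_comm _ _
    have hker : ⨅ i : Q, LinearMap.ker (ψ i.1) ≤ LinearMap.ker φ := by
      change N ≤ _
      rw [← hs, Submodule.span_le]
      rintro _ ⟨j, rfl⟩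
      rw [SetLike.mem_coe, LinearMap.mem_ker, hφ]
      exact h8 j
    have h11 := mem_span_of_iInf_ker_le_ker hker
    rw [Submodule.mem_span_range_iff_exists_fun] at h11
    obtain ⟨c, hc⟩ := h11
    obtain ⟨w, hw⟩ : ∃ w : σ → ℚ, w = fun i => if h : i ∈ Q then c ⟨i, h⟩ else 0 := ⟨_, rfl⟩
    have hw1 : ∀ i, i ∉ Q → w i = 0 := by
      intro i hi
      rw [hw]
      exact dif_neg hi
    have hw2 : ∀ i : Q, w i.1 = c i := by
      intro i
      rw [hw]
      exact dif_pos i.2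
    refine ⟨w, ?_, ?_⟩
    · intro i hi
      by_contra h
      exact hi (hw1 i h)
    · intro a ha
      have h12 : φ (Pi.single ⟨a, ha⟩ 1) = dq v a := by
        rw [hφ, Finset.sum_eq_single_of_mem (⟨a, ha⟩ : A) (mem_univ _) (fun b _ hb => by
          rw [Pi.single_eq_of_ne hb, zero_mul]), Pi.single_eq_same, one_mul]
      have h13 : ∀ i, ψ i (Pi.single ⟨a, ha⟩ 1) = (a i : ℚ) := by
        intro i
        rw [hψ, Finset.sum_eq_single_of_mem (⟨a, ha⟩ : A) (mem_univ _) (fun b _ hb => by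
          rw [Pi.single_eq_of_ne hb, zero_mul]), Pi.single_eq_same, one_mul]
      rw [← h12, ← hc, LinearMap.sum_apply]
      unfold dq
      rw [← Finset.sum_subset (Finset.subset_univ Q) (fun i _ hi => by
        rw [hw1 i hi, zero_mul]), ← Finset.sum_coe_sort Q]
      refine Finset.sum_congr rfl fun i _ => ?_
      rw [LinearMap.smul_apply, smul_eq_mul, h13, hw2]

end Pool.Agent.NDR.H42
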